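import Mathlib

set_option autoImplicit false

/-!
# The open unit square is not `F`-paradoxical

`F` is the group generated by the two matrices `(1 2; 0 1)` and `(1 0; 2 1)`, acting linearly on
the plane. We show that the open unit square is not paradoxical under `F` (nor under any group of
integer matrices of determinant one). The reason is that the orbit of the point `(3/4, 3/4)` meets
the square in this one point only.
-/

namespace Pool.Agent.Results.MP_104382_al.NotFParadoxical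

open Matrix

/-- A set `E` in the plane is paradoxical under the group `G` of real matrices of determinant one,
acting by linear maps: there are positive integers `n`, `m`, pairwise disjoint subsets
`A 0, ..., A (n-1), B 0, ..., B (m-1)` of `E` and elements `g i`, `h j` of `G` such that `E` is the
union of the sets `g i (A i)` and also the union of the sets `h j (B j)`. -/
def IsParadoxical (G : Subgroup (Matrix.SpecialLinearGroup (Fin 2) ℝ)) (E : Set (Fin 2 → ℝ)) : Prop :=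
  ∃ (n m : ℕ) (A : Fin n → Set (Fin 2 → ℝ)) (B : Fin m → Set (Fin 2 → ℝ))
    (g : Fin n → Matrix.SpecialLinearGroup (Fin 2) ℝ) (h : Fin m → Matrix.SpecialLinearGroup (Fin 2) ℝ),
    0 < n ∧ 0 < m ∧ (∀ i, g i ∈ G) ∧ (∀ j, h j ∈ G) ∧
    (∀ i, A i ⊆ E) ∧ (∀ j, B j ⊆ E) ∧
    Pairwise (fun i i' => Disjoint (A i) (A i')) ∧
    Pairwise (fun j j' => Disjoint (B j) (B j')) ∧
    (∀ i j, Disjoint (A i) (B j)) ∧
    (⋃ i, (fun v => Matrix.mulVec ((g i : Matrix (Fin 2) (Fin 2) ℝ)) v) '' A i) = E ∧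
    (⋃ j, (fun v => Matrix.mulVec ((h j : Matrix (Fin 2) (Fin 2) ℝ)) v) '' B j) = E

/-- The interior of the unit square. -/
def Q : Set (Fin 2 → ℝ) := {v | ∀ k, 0 < v k ∧ v k < 1}

/-- The matrix `(1 2; 0 1)`. -/
def a : Matrix.SpecialLinearGroup (Fin 2) ℝ := ⟨!![1, 2; 0, 1], by simp [Matrix.det_fin_two]⟩

/-- The matrix `(1 0; 2 1)`, the transpose of `a`. -/
def b : Matrix.SpecialLinearGroup (Fin 2) ℝ := ⟨!![1, 0; 2, 1], by simp [Matrix.det_fin_two]⟩

/-- The group generated by `a` and `b`. -/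
def F : Subgroup (Matrix.SpecialLinearGroup (Fin 2) ℝ) := Subgroup.closure {a, b}

/-- The group `SL₂(ℤ)` inside `SL₂(ℝ)`. -/
def SLZ : Subgroup (Matrix.SpecialLinearGroup (Fin 2) ℝ) :=
  (Matrix.SpecialLinearGroup.map (n := Fin 2) (Int.castRingHom ℝ)).range

theorem F_le : F ≤ SLZ := by
  unfold F
  rw [Subgroup.closure_le]
  rintro x (rfl | rfl)
  · refine ⟨⟨!![1, 2; 0, 1], by simp [Matrix.det_fin_two]⟩, Matrix.SpecialLinearGroup.ext _ _ ?_⟩
    intro i j
    change (Int.castRingHom ℝ) ((!![1, 2; 0, 1] : Matrix (Fin 2) (Fin 2) ℤ) i j) =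
      (!![1, 2; 0, 1] : Matrix (Fin 2) (Fin 2) ℝ) i j
    fin_cases i <;> fin_cases j <;> simp
  · refine ⟨⟨!![1, 0; 2, 1], by simp [Matrix.det_fin_two]⟩, Matrix.SpecialLinearGroup.ext _ _ ?_⟩
    intro i j
    change (Int.castRingHom ℝ) ((!![1, 0; 2, 1] : Matrix (Fin 2) (Fin 2) ℤ) i j) =
      (!![1, 0; 2, 1] : Matrix (Fin 2) (Fin 2) ℝ) i j
    fin_cases i <;> fin_cases j <;> simp

/-- The point `(3/4, 3/4)`. -/
noncomputable def p : Fin 2 → ℝ := fun _ => 3 / 4

theorem p_mem : p ∈ Q := by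
  intro k
  unfold p
  constructor <;> norm_num

/-- A coordinate of an integer multiple of `3/4` lying strictly between `0` and `1`. -/
theorem int_eq_one {z : ℤ} (h : 0 < (z : ℝ) * (3 / 4)) (h' : (z : ℝ) * (3 / 4) < 1) : z = 1 := by
  have h1 : (0 : ℝ) < z := by linarith
  have h2 : (z : ℝ) < 2 := by linarith
  have h3 : 0 < z := by exact_mod_cast h1
  have h4 : z < 2 := by exact_mod_cast h2
  omega

/-- If an integer matrix of determinant one maps a point of the square to `p`, the point is `p`. -/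
theorem eq_p {g : Matrix.SpecialLinearGroup (Fin 2) ℝ} (hg : g ∈ SLZ) {v : Fin 2 → ℝ} (hv : v ∈ Q)
    (h : Matrix.mulVec (g : Matrix (Fin 2) (Fin 2) ℝ) v = p) : v = p := by
  have hg' : g⁻¹ ∈ SLZ := SLZ.inv_mem hg
  obtain ⟨z, hz⟩ := hg'
  have h1 : v = Matrix.mulVec ((g⁻¹ : Matrix.SpecialLinearGroup (Fin 2) ℝ) : Matrix (Fin 2) (Fin 2) ℝ)
      p := by
    have h0 : ((g⁻¹ : Matrix.SpecialLinearGroup (Fin 2) ℝ) : Matrix (Fin 2) (Fin 2) ℝ) *
        (g : Matrix (Fin 2) (Fin 2) ℝ) = 1 := congrArg Subtype.val (inv_mul_cancel g)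
    rw [← h, Matrix.mulVec_mulVec, h0, Matrix.one_mulVec]
  have h2 : ∀ i, v i = ((z i 0 + z i 1 : ℤ) : ℝ) * (3 / 4) := by
    intro i
    rw [h1, ← hz]
    simp [Matrix.mulVec, dotProduct, Fin.sum_univ_two, p]
    ring
  funext i
  have h3 := hv i
  rw [h2 i] at h3
  have h4 := int_eq_one h3.1 h3.2
  rw [h2 i, h4]
  simp [p]

/-- The square is not paradoxical under a group of integer matrices of determinant one. -/
theorem not_paradoxical (G : Subgroup (Matrix.SpecialLinearGroup (Fin 2) ℝ)) (hG : G ≤ SLZ) :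
    ¬ IsParadoxical G Q := by
  rintro ⟨n, m, A, B, g, h, -, -, hg, hh, hA, hB, -, -, hAB, hE, hE'⟩
  have h1 : p ∈ ⋃ i, (fun v => Matrix.mulVec ((g i : Matrix (Fin 2) (Fin 2) ℝ)) v) '' A i := by
    rw [hE]; exact p_mem
  have h2 : p ∈ ⋃ j, (fun v => Matrix.mulVec ((h j : Matrix (Fin 2) (Fin 2) ℝ)) v) '' B j := by
    rw [hE']; exact p_mem
  rw [Set.mem_iUnion] at h1 h2
  obtain ⟨i, v, hv, hvp⟩ := h1
  obtain ⟨j, w, hw, hwp⟩ := h2
  have e1 : v = p := eq_p (hG (hg i)) (hA i hv) hvp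
  have e2 : w = p := eq_p (hG (hh j)) (hB j hw) hwp
  exact Set.disjoint_left.1 (hAB i j) (e1 ▸ hv) (e2 ▸ hw)

/-- **The open unit square is not `F`-paradoxical.** -/
theorem result : ¬ IsParadoxical F Q := not_paradoxical F F_le

end Pool.Agent.Results.MP_104382_al.NotFParadoxical
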